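import Pool.Agent.Helper77.SND.Stmts

set_option autoImplicit false

namespace Pool.Agent.Helper77.SND

theorem star_not_good {m : ℕ} {V : Type} {H : SimpleGraph (Fin m)} {G : SimpleGraph V}
    {c : Sym2 V → Bool} (h : ¬ Good H G c) :
    ∃ (b : Bool) (f : Fin m → V), Copy H G f ∧ ∀ x y, H.Adj x y → c s(f x, f y) = b := by
  unfold Good at h
  push Not at h
  exact h

theorem st_STAR (hR : ST_RAMS) (hD : ST_DEG) : ST_STAR := by
  intro m H hH
  have hm : 0 < m := by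
    have := hH.1
    omega
  obtain ⟨n, hn⟩ := hR m H
  obtain ⟨G, hG, hmin⟩ := (wellFounded_lt (α := SimpleGraph (Fin n))).has_min
    {G | ∀ c : Sym2 (Fin n) → Bool, ¬ Good H G c} ⟨⊤, hn⟩
  change ∀ c : Sym2 (Fin n) → Bool, ¬ Good H G c at hG
  obtain ⟨b0, f0, hf0, _⟩ := star_not_good (hG fun _ => true)
  obtain ⟨z0, hz0, _⟩ := hD m H hH ⟨0, hm⟩ ⟨0, hm⟩
  have hxy : G.Adj (f0 ⟨0, hm⟩) (f0 z0) := hf0.2 _ _ hz0
  obtain ⟨x0, hx0⟩ : ∃ x0, x0 = f0 ⟨0, hm⟩ := ⟨_, rfl⟩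
  obtain ⟨y0, hy0⟩ : ∃ y0, y0 = f0 z0 := ⟨_, rfl⟩
  rw [← hx0, ← hy0] at hxy
  have hXadj : ∀ a b, (G.deleteEdges {s(x0, y0)}).Adj a b ↔ G.Adj a b ∧ s(a, b) ≠ s(x0, y0) := by
    intro a b
    rw [SimpleGraph.deleteEdges_adj, Set.mem_singleton_iff]
  have hlt : G.deleteEdges {s(x0, y0)} < G := by
    refine lt_of_le_of_ne (SimpleGraph.deleteEdges_le _) ?_
    intro h
    have h1 : (G.deleteEdges {s(x0, y0)}).Adj x0 y0 := by
      rw [h]
      exact hxy
    exact ((hXadj _ _).1 h1).2 rfl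
  refine ⟨Fin n, inferInstance, G.deleteEdges {s(x0, y0)}, x0, ?_, ?_⟩
  · by_contra hno
    push Not at hno
    exact hmin _ hno hlt
  · intro c hc b
    obtain ⟨b', f, hf, hcol⟩ := star_not_good (hG (Function.update c s(x0, y0) b))
    have hex : ∃ z z', H.Adj z z' ∧ s(f z, f z') = s(x0, y0) := by
      by_contra hno
      push Not at hno
      have hcopy : Copy H (G.deleteEdges {s(x0, y0)}) f :=
        ⟨hf.1, fun z z' hz => (hXadj _ _).2 ⟨hf.2 z z' hz, hno z z' hz⟩⟩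
      obtain ⟨z, z', hz, hne⟩ := hc b' f hcopy
      apply hne
      have h1 := hcol z z' hz
      rwa [Function.update_of_ne (hno z z' hz)] at h1
    have hex' : ∃ z z', H.Adj z z' ∧ f z = x0 ∧ f z' = y0 := by
      obtain ⟨z, z', hz, he⟩ := hex
      rcases Sym2.eq_iff.1 he with ⟨h1, h2⟩ | ⟨h1, h2⟩
      · exact ⟨z, z', hz, h1, h2⟩
      · exact ⟨z', z, hz.symm, h2, h1⟩
    obtain ⟨z, z', hz, hfz, hfz'⟩ := hex'
    have hb : b' = b := by
      have h1 := hcol z z' hz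
      rw [hfz, hfz', Function.update_self] at h1
      exact h1.symm
    obtain ⟨z'', hz'', hne⟩ := hD m H hH z z'
    have hne' : f z'' ≠ y0 := by
      rw [← hfz']
      exact fun h => hne (hf.1 h)
    have hs : s(x0, f z'') ≠ s(x0, y0) := by
      intro h
      rcases Sym2.eq_iff.1 h with ⟨_, h2⟩ | ⟨h1, h2⟩
      · exact hne' h2
      · exact hne' (h2.trans h1)
    refine ⟨f z'', (hXadj _ _).2 ⟨?_, hs⟩, ?_⟩
    · rw [← hfz]
      exact hf.2 z z'' hz''
    · have h1 := hcol z z'' hz''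
      rw [hfz, Function.update_of_ne hs, hb] at h1
      exact h1

end Pool.Agent.Helper77.SND
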